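import Pool.Agent.H97.SS.PFE

set_option autoImplicit false

open MeasureTheory Filter Topology Set ProbabilityTheory
open scoped ENNReal ComplexConjugate

open Pool.Agent.H84.SS

open Pool.Agent.H85.RT (avg GoodWeight Good)
open Pool.Agent.H94.RTB (LGood PD)

universe u v

namespace Pool.Agent.H97.SS

variable {X : Type u} [MeasurableSpace X] {μ : Measure X} [IsProbabilityMeasure μ] {T : X ≃ᵐ X}

theorem meas_random {F : ℕ → X → ℂ} (hF : ∀ n, Measurable (F n)) {N : X → ℕ} (hN : Measurable N) :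
    Measurable fun x => (∑ n ∈ Finset.Icc 1 (N x), F n x) / (N x : ℂ) := by
  have h : Measurable fun p : X × ℕ => (∑ n ∈ Finset.Icc 1 p.2, F n p.1) / (p.2 : ℂ) :=
    measurable_from_prod_countable_left fun m => by
      change Measurable fun x => (∑ n ∈ Finset.Icc 1 m, F n x) / (m : ℂ)
      exact (Finset.measurable_fun_sum _ fun n _ => hF n).div_const _
  exact h.comp (measurable_id.prodMk hN)

theorem bdd_random {F : ℕ → ℂ} {C : ℝ} (hC : 0 ≤ C) (hF : ∀ n, ‖F n‖ ≤ C) (N : ℕ) :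
    ‖(∑ n ∈ Finset.Icc 1 N, F n) / (N : ℂ)‖ ≤ C := by
  rw [norm_div, Complex.norm_natCast]
  rcases Nat.eq_zero_or_pos N with rfl | hN
  · simpa using hC
  · rw [div_le_iff₀ (by exact_mod_cast hN)]
    refine (norm_sum_le _ _).trans ((Finset.sum_le_sum fun n _ => hF n).trans (le_of_eq ?_))
    rw [Finset.sum_const, Nat.card_Icc, nsmul_eq_mul, Nat.add_sub_cancel, mul_comm]

theorem cf_bdd {f : X → ℂ} (hf : Measurable f) (h : ∀ x, ‖f x‖ ≤ 1) (b b' : ℕ) :
    ∀ᵐ x ∂μ, ‖cf μ T f b b' x‖ ≤ 1 := by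
  have hm := MeasurableSpace.invariants_le (T : X → X)
  have e1 := norm_condExp_le (μ := μ) (m := MeasurableSpace.invariants T) (fp T f b b')
  have e2 : μ[(fun x => ‖fp T f b b' x‖) | MeasurableSpace.invariants T] ≤ᵐ[μ]
      μ[(fun _ => (1 : ℝ)) | MeasurableSpace.invariants T] :=
    condExp_mono (int_bdd (fp_meas (T := T) hf b b') 1 (fp_bdd h b b')).norm (integrable_const _)
      (Filter.Eventually.of_forall fun x => fp_bdd h b b' x)
  rw [condExp_const hm] at e2
  filter_upwards [e1, e2] with x h1 h2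
  exact h1.trans h2

theorem cf_sm (f : X → ℂ) (b b' : ℕ) :
    StronglyMeasurable[MeasurableSpace.invariants T] (cf μ T f b b') :=
  stronglyMeasurable_condExp

theorem cf_sm' (f : X → ℂ) (b b' : ℕ) :
    StronglyMeasurable[MeasurableSpace.invariants T] (cf μ T.symm f b b') := by
  rw [← invariants_symm T]
  exact cf_sm (T := T.symm) f b b'

theorem one_u (h1 : M_CSR.{u}) (h2 : M_SQC.{u}) (h3 : M_SQD.{u}) (h4 : M_AEI.{u})
    (f g : X → ℂ) (w : ℕ → ℂ) (B : ℝ) (N : ℕ → X → ℕ) (θ : ℕ → X → ℂ)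
    (R : ℕ → ℕ → ℕ → X → ℂ) (hT : MeasurePreserving T μ μ) (hf : Measurable f) (hg : Measurable g)
    (hf1 : ∀ x, ‖f x‖ ≤ 1) (hg1 : ∀ x, ‖g x‖ ≤ 1) (hw : ∀ n, ‖w n‖ ≤ B)
    (hD : DRfg μ T f g) (hN : RTimes N θ) (hR : IsLim μ T f g w N θ R) (a : ℕ)
    (s : Finset (ℕ × ℕ)) (u : ℕ × ℕ → ℂ) :
    ∀ᵐ x ∂μ, ‖∑ i ∈ s, u i * R a i.1 i.2 x‖ ^ 2 ≤ (2 * B ^ 2) *
      (∑ i ∈ s, ∑ j ∈ s, u i * conj (u j) * cf μ T f i.1 j.1 x * cf μ T.symm g i.2 j.2 x).re := by
  have hB : 0 ≤ B := (norm_nonneg _).trans (hw 0)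
  have hm := MeasurableSpace.invariants_le (T : X → X)
  set y : ℕ → X → ℂ := fun n x => ∑ i ∈ s, u i * (f (T^[n + i.1] x) * g (T.symm^[n + i.2] x))
    with hy
  set z : ℕ → X → ℂ := fun n _ => w (n + a) with hz
  set Y : ℝ := ∑ i ∈ s, ‖u i‖ with hY
  have hY0 : 0 ≤ Y := Finset.sum_nonneg fun _ _ => norm_nonneg _
  have hym : ∀ n, Measurable (y n) := fun n => Finset.measurable_fun_sum _ fun i _ =>
    ((hf.comp (iter_meas T _)).mul (hg.comp (iter_meas T.symm _))).const_mul _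
  have hyb : ∀ n x, ‖y n x‖ ≤ Y := fun n x => by
    refine (norm_sum_le _ _).trans (Finset.sum_le_sum fun i _ => ?_)
    rw [norm_mul, norm_mul]
    exact mul_le_of_le_one_right (norm_nonneg _) (mul_le_one₀ (hf1 _) (norm_nonneg _) (hg1 _))
  -- the functions `ph`
  have hphm : ∀ i b c, Measurable (ph T f g w (N i) (θ i) a b c) := fun i b c =>
    (hN.measθ i).mul (meas_random (fun n => ((hf.comp (iter_meas T _)).const_mul _).mul
      (hg.comp (iter_meas T.symm _))) (hN.measN i))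
  have hphb : ∀ i b c x, ‖ph T f g w (N i) (θ i) a b c x‖ ≤ B := by
    intro i b c x
    unfold ph
    rw [norm_mul]
    refine (mul_le_of_le_one_left (norm_nonneg _) (hN.bddθ i x)).trans (bdd_random hB
      (fun n => ?_) _)
    rw [norm_mul, norm_mul]
    exact (mul_le_of_le_one_right (by positivity) (hg1 _)).trans
      ((mul_le_of_le_one_right (norm_nonneg _) (hf1 _)).trans (hw _))
  have hphi : ∀ i b c (Q : Set X), IntegrableOn (ph T f g w (N i) (θ i) a b c) Q μ :=
    fun i b c Q => (int_bdd (hphm i b c) B (hphb i b c)).integrableOn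
  have hsum : ∀ i x, ∑ j ∈ s, u j * ph T f g w (N i) (θ i) a j.1 j.2 x =
      θ i x * ((∑ n ∈ Finset.Icc 1 (N i x), y n x * z n x) / (N i x : ℂ)) := by
    intro i x
    simp only [ph, hy, hz, Finset.sum_mul]
    rw [Finset.sum_comm, Finset.sum_div, Finset.mul_sum]
    refine Finset.sum_congr rfl fun j _ => ?_
    rw [mul_left_comm, ← mul_div_assoc, Finset.mul_sum]
    congr 2
    refine Finset.sum_congr rfl fun n _ => by ring
  -- the square averages
  have hLb : ∀ (M : ℕ) x, ‖(∑ n ∈ Finset.Icc 1 M, ‖y n x‖ ^ 2) / (M : ℝ)‖ ≤ Y ^ 2 := by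
    intro M x
    rw [Real.norm_of_nonneg (by positivity)]
    rcases Nat.eq_zero_or_pos M with rfl | hM
    · simp only [Nat.cast_zero, div_zero]
      positivity
    · rw [div_le_iff₀ (by exact_mod_cast hM)]
      refine (Finset.sum_le_sum fun n _ => pow_le_pow_left₀ (norm_nonneg _) (hyb n x) 2).trans
        (le_of_eq ?_)
      rw [Finset.sum_const, Nat.card_Icc, nsmul_eq_mul, Nat.add_sub_cancel, mul_comm]
  have hLm : ∀ M : ℕ, Measurable fun x => (∑ n ∈ Finset.Icc 1 M, ‖y n x‖ ^ 2) / (M : ℝ) :=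
    fun M => (Finset.measurable_fun_sum _ fun n _ => ((hym n).norm.pow_const 2)).div_const _
  have hae := h2 X μ T f g hD s u
  have hΛ : ∀ Q : Set X, ∃ Λ : ℝ, Tendsto (fun M : ℕ => ∫ x in Q,
      (∑ n ∈ Finset.Icc 1 M, ‖y n x‖ ^ 2) / (M : ℝ) ∂μ) atTop (𝓝 Λ) := by
    classical
    intro Q
    refine ⟨∫ x in Q, (if h : ∃ l : ℝ, Tendsto (fun M : ℕ => (∑ n ∈ Finset.Icc 1 M,
      ‖y n x‖ ^ 2) / (M : ℝ)) atTop (𝓝 l) then h.choose else 0) ∂μ, ?_⟩
    refine tendsto_integral_of_dominated_convergence (fun _ => Y ^ 2)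
      (fun M => (hLm M).aestronglyMeasurable) (integrable_const _)
      (fun M => Filter.Eventually.of_forall (hLb M)) (ae_restrict_of_ae ?_)
    filter_upwards [hae] with x hx
    rw [dif_pos hx]
    exact hx.choose_spec
  -- integrability of the form
  have hcc : ∀ i j : ℕ × ℕ, Integrable (fun x => u i * conj (u j) * cf μ T f i.1 j.1 x *
      cf μ T.symm g i.2 j.2 x) μ := by
    intro i j
    refine (integrable_const (‖u i * conj (u j)‖)).mono' ?_ ?_
    · exact ((((cf_sm (μ := μ) (T := T) f i.1 j.1).mono hm).const_mul _).mul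
        ((cf_sm' (μ := μ) (T := T) g i.2 j.2).mono hm)).aestronglyMeasurable
    · filter_upwards [cf_bdd (μ := μ) (T := T) hf hf1 i.1 j.1,
        cf_bdd (μ := μ) (T := T.symm) hg hg1 i.2 j.2] with x hx1 hx2
      rw [norm_mul, norm_mul (u i * conj (u j))]
      exact (mul_le_of_le_one_right (by positivity) hx2).trans
        (mul_le_of_le_one_right (norm_nonneg _) hx1)
  refine h4 X (MeasurableSpace.invariants T) μ hm (fun x => ∑ i ∈ s, u i * R a i.1 i.2 x)
    (fun x => (2 * B ^ 2) * (∑ i ∈ s, ∑ j ∈ s, u i * conj (u j) * cf μ T f i.1 j.1 x *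
      cf μ T.symm g i.2 j.2 x).re) ?_ ?_ ?_ ?_ ?_
  · exact Finset.stronglyMeasurable_fun_sum _ fun i _ => (hR.meas a i.1 i.2).const_mul _
  · refine StronglyMeasurable.const_mul ?_ _
    refine Complex.continuous_re.comp_stronglyMeasurable ?_
    exact Finset.stronglyMeasurable_fun_sum _ fun i _ => Finset.stronglyMeasurable_fun_sum _
      fun j _ => ((cf_sm (μ := μ) (T := T) f i.1 j.1).const_mul _).mul
        (cf_sm' (μ := μ) (T := T) g i.2 j.2)
  · exact integrable_finset_sum _ fun i _ => (hR.int a i.1 i.2).const_mul _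
  · exact (Complex.reCLM.integrable_comp (integrable_finset_sum _ fun i _ =>
      integrable_finset_sum _ fun j _ => hcc i j)).const_mul _
  · intro Q hQ
    obtain ⟨Λ, hΛQ⟩ := hΛ Q
    have e1 : Tendsto (fun i => ∫ x in Q, θ i x * ((∑ n ∈ Finset.Icc 1 (N i x), y n x * z n x) /
        (N i x : ℂ)) ∂μ) (hyperfilter ℕ) (𝓝 (∫ x in Q, ∑ i ∈ s, u i * R a i.1 i.2 x ∂μ)) := by
      have e2 : ∀ i, ∫ x in Q, θ i x * ((∑ n ∈ Finset.Icc 1 (N i x), y n x * z n x) /
          (N i x : ℂ)) ∂μ = ∑ j ∈ s, u j * ∫ x in Q, ph T f g w (N i) (θ i) a j.1 j.2 x ∂μ := by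
        intro i
        rw [integral_congr_ae (Filter.Eventually.of_forall fun x => (hsum i x).symm),
          integral_finset_sum _ fun j _ => (hphi i j.1 j.2 Q).const_mul _]
        exact Finset.sum_congr rfl fun j _ => integral_const_mul _ _
      have e3 : ∫ x in Q, ∑ i ∈ s, u i * R a i.1 i.2 x ∂μ =
          ∑ j ∈ s, u j * ∫ x in Q, R a j.1 j.2 x ∂μ := by
        rw [integral_finset_sum _ fun j _ => ((hR.int a j.1 j.2).integrableOn).const_mul _]
        exact Finset.sum_congr rfl fun j _ => integral_const_mul _ _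
      simp only [e2]
      rw [e3]
      exact tendsto_finset_sum _ fun j _ => (hR.lim a j.1 j.2 Q hQ).const_mul _
    have k1 := h1 X μ y z Y B N θ Q hym (fun n => measurable_const) hyb (fun n x => hw _) hN
      (hm _ hQ) hae _ Λ e1 hΛQ
    have k2 := h3 X μ T f g hT hf hg hf1 hg1 s u Q Λ hQ hΛQ
    rw [integral_const_mul]
    refine k1.trans ?_
    have k3 : μ.real Q * Λ ≤ μ.real Q * (2 * ∫ x in Q, (∑ i ∈ s, ∑ j ∈ s, u i * conj (u j) *
            cf μ T f i.1 j.1 x * cf μ T.symm g i.2 j.2 x).re ∂μ) :=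
      mul_le_mul_of_nonneg_left k2 measureReal_nonneg
    refine (mul_le_mul_of_nonneg_left k3 (sq_nonneg B)).trans (le_of_eq ?_)
    ring

theorem pf_B23 (h1 : M_CSR.{u}) (h2 : M_SQC.{u}) (h3 : M_SQD.{u}) (h4 : M_AEI.{u})
    (h5 : M_CTS.{u}) (h6 : M_PFE.{u}) : M_B23.{u} := by
  intro X _ μ _ T f g w B N θ R hT hf hg hf1 hg1 hw hD hN hR
  have p1 := h6 X μ T f hT hf hf1
  have p2 := h6 X μ T.symm g (mp_symm hT) hg hg1
  have key : ∀ᵐ x ∂μ, ∀ (a : ℕ) (s : Finset (ℕ × ℕ)) (v : s → ℂ),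
      ‖∑ i : s, v i * R a i.1.1 i.1.2 x‖ ^ 2 ≤ (2 * B ^ 2) *
      (∑ i : s, ∑ j : s, v i * conj (v j) * cf μ T f i.1.1 j.1.1 x *
        cf μ T.symm g i.1.2 j.1.2 x).re := by
    rw [ae_all_iff]
    intro a
    rw [ae_all_iff]
    intro s
    refine h5 X μ s (fun x v => ‖∑ i : s, v i * R a i.1.1 i.1.2 x‖ ^ 2)
      (fun x v => (2 * B ^ 2) * (∑ i : s, ∑ j : s, v i * conj (v j) * cf μ T f i.1.1 j.1.1 x *
        cf μ T.symm g i.1.2 j.1.2 x).re) ?_ ?_ ?_
    · intro x
      fun_prop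
    · intro x
      refine continuous_const.mul (Complex.continuous_re.comp ?_)
      refine continuous_finset_sum _ fun i _ => continuous_finset_sum _ fun j _ => ?_
      refine ((Continuous.mul (continuous_apply i) ?_).mul continuous_const).mul continuous_const
      exact Complex.continuous_conj.comp (continuous_apply j)
    · intro v
      have hu := one_u h1 h2 h3 h4 f g w B N θ R hT hf hg hf1 hg1 hw hD hN hR a s
        (fun i => if h : i ∈ s then v ⟨i, h⟩ else 0)
      filter_upwards [hu] with x hx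
      rw [← Finset.sum_coe_sort s] at hx
      rw [← Finset.sum_coe_sort s (fun i => ∑ j ∈ s, _)] at hx
      have e : ∀ i : s, (if h : (i : ℕ × ℕ) ∈ s then v ⟨i, h⟩ else 0) = v i := fun i => by
        rw [dif_pos i.2]
      simp only [e] at hx
      refine hx.trans (le_of_eq ?_)
      congr 2
      refine Finset.sum_congr rfl fun i _ => ?_
      rw [← Finset.sum_coe_sort s]
      simp only [e]
  filter_upwards [key, p1, p2] with x hx q1 q2
  intro a s u
  have h := hx a s (fun i => u i.1)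
  rw [Finset.sum_coe_sort s (fun i => u i * R a i.1 i.2 x)] at h
  refine h.trans (le_of_eq ?_)
  congr 2
  unfold qf
  rw [← Finset.sum_coe_sort s]
  refine Finset.sum_congr rfl fun i _ => ?_
  rw [← Finset.sum_coe_sort s]
  refine Finset.sum_congr rfl fun j _ => ?_
  rw [q1.1, q2.1]

end Pool.Agent.H97.SS
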