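import Pool.Agent.H84.SS.Targets

set_option autoImplicit false

open MeasureTheory Filter Topology Set ProbabilityTheory
open scoped ENNReal ComplexConjugate

open Pool.Agent.H84.SS

open Pool.Agent.H85.RT (avg GoodWeight Good)
open Pool.Agent.H94.RTB (LGood PD)

universe u v

namespace Pool.Agent.H97.SS

variable {X : Type u} [MeasurableSpace X] {μ : Measure X} [IsProbabilityMeasure μ] {T : X ≃ᵐ X}

theorem iter_meas (T : X ≃ᵐ X) (n : ℕ) : Measurable (T^[n] : X → X) := T.measurable.iterate n

theorem int_bdd {F : X → ℂ} (hF : Measurable F) (C : ℝ) (h : ∀ x, ‖F x‖ ≤ C) : Integrable F μ :=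
  (integrable_const C).mono' hF.aestronglyMeasurable (Filter.Eventually.of_forall h)

theorem condExp_iter (hT : MeasurePreserving T μ μ) {H : X → ℂ} (hH : Measurable H) (C : ℝ)
    (hC : ∀ x, ‖H x‖ ≤ C) (n : ℕ) :
    μ[H | MeasurableSpace.invariants T] =ᵐ[μ]
      μ[fun x => H (T^[n] x) | MeasurableSpace.invariants T] := by
  have hm := MeasurableSpace.invariants_le (T : X → X)
  refine ae_eq_condExp_of_forall_setIntegral_eq hm
    (int_bdd (hH.comp (iter_meas T n)) C fun x => hC _) (fun s _ _ => integrable_condExp.integrableOn)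
    (fun s hs _ => ?_) stronglyMeasurable_condExp.aestronglyMeasurable
  rw [setIntegral_condExp hm (int_bdd hH C hC) hs]
  exact (setIntegral_iter hT hs H n).symm

theorem fp_meas {f : X → ℂ} (hf : Measurable f) (b b' : ℕ) : Measurable (fp T f b b') := by
  unfold fp
  exact (hf.comp (iter_meas T b)).mul
    (Complex.continuous_conj.measurable.comp (hf.comp (iter_meas T b')))

theorem fp_bdd {f : X → ℂ} (h : ∀ x, ‖f x‖ ≤ 1) (b b' : ℕ) (x : X) : ‖fp T f b b' x‖ ≤ 1 := by
  unfold fp
  rw [norm_mul, Complex.norm_conj]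
  exact mul_le_one₀ (h _) (norm_nonneg _) (h _)

theorem fp_shift (f : X → ℂ) (b b' k : ℕ) (x : X) :
    fp T f (b + k) (b' + k) x = fp T f b b' (T^[k] x) := by
  unfold fp
  rw [Function.iterate_add_apply, Function.iterate_add_apply]

theorem cf_shift (hT : MeasurePreserving T μ μ) {f : X → ℂ} (hf : Measurable f)
    (h : ∀ x, ‖f x‖ ≤ 1) (b b' k : ℕ) : cf μ T f (b + k) (b' + k) =ᵐ[μ] cf μ T f b b' := by
  have h1 := condExp_iter hT (fp_meas (T := T) hf b b') 1 (fp_bdd h b b') k
  have h2 : fp T f (b + k) (b' + k) = fun x => fp T f b b' (T^[k] x) :=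
    funext fun x => fp_shift f b b' k x
  unfold cf
  rw [h2]
  exact h1.symm

theorem pf_PFE : M_PFE.{u} := by
  intro X _ μ _ T f hT hf h
  have hm := MeasurableSpace.invariants_le (T : X → X)
  have h1 : ∀ᵐ x ∂μ, ∀ b b' : ℕ, cf μ T f b b' x = pf μ T f x ((b : ℤ) - b') := by
    rw [ae_all_iff]
    intro b
    rw [ae_all_iff]
    intro b'
    have h2 := cf_shift hT hf h (b - b') (b' - b) (min b b')
    rw [show b - b' + min b b' = b by omega, show b' - b + min b b' = b' by omega] at h2
    filter_upwards [h2] with x hx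
    rw [hx]
    unfold pf
    rw [show ((b : ℤ) - b').toNat = b - b' by omega, show (-((b : ℤ) - b')).toNat = b' - b by omega]
  have h3 : ∀ᵐ x ∂μ, (pf μ T f x 0).re ≤ 1 := by
    have e1 := Complex.reCLM.comp_condExp_comm (m := MeasurableSpace.invariants T)
      (int_bdd (μ := μ) (fp_meas (T := T) hf 0 0) 1 (fp_bdd h 0 0))
    have e2 : μ[(Complex.reCLM ∘ fp T f 0 0) | MeasurableSpace.invariants T] ≤ᵐ[μ]
        μ[(fun _ => (1 : ℝ)) | MeasurableSpace.invariants T] := by
      refine condExp_mono (Complex.reCLM.integrable_comp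
        (int_bdd (fp_meas (T := T) hf 0 0) 1 (fp_bdd h 0 0))) (integrable_const _)
        (Filter.Eventually.of_forall fun x => ?_)
      exact (Complex.re_le_norm _).trans (fp_bdd h 0 0 x)
    rw [condExp_const hm] at e2
    filter_upwards [e1, e2] with x hx1 hx2
    rw [← hx1] at hx2
    exact hx2
  filter_upwards [h1, h3] with x hx hx'
  exact ⟨hx, hx'⟩

end Pool.Agent.H97.SS
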